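import Pool.Agent.W872.SV.Stm

set_option autoImplicit false

namespace Pool.Agent.W592.SV

open W872.SV Finset

lemma sw_adj {n : ℕ} (G : SimpleGraph (Fin n)) (i a b : Fin n) :
    (sw G i).Adj a b ↔ a ≠ b ∧ (G.Adj a b ↔ (a ≠ i ∧ b ≠ i)) := Iff.rfl

lemma dg_iso {n : ℕ} {A B : SimpleGraph (Fin n)} (θ : A ≃g B) (w : Fin n) :
    dg A w = dg B (θ w) := by
  classical
  unfold dg
  apply Finset.card_equiv θ.toEquiv
  intro x
  simp only [mem_filter, mem_univ, true_and]
  exact (θ.map_adj_iff).symm

lemma dg_self {n : ℕ} (H : SimpleGraph (Fin n)) (j : Fin n) :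
    dg (sw H j) j + dg H j + 1 = n := by
  classical
  unfold dg
  have h1 : (univ.filter fun x => ¬ H.Adj j x) = insert j (univ.filter fun x => (sw H j).Adj j x) := by
    ext x
    simp only [mem_filter, mem_univ, true_and, mem_insert, sw_adj]
    constructor
    · intro h
      by_cases hx : x = j
      · exact Or.inl hx
      · refine Or.inr ⟨fun e => hx e.symm, ?_⟩
        constructor
        · intro h'; exact absurd h' h
        · intro h'; exact absurd rfl h'.1
    · rintro (rfl | h)
      · exact H.loopless.irrefl _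
      · intro h'
        exact (h.2.1 h').1 rfl
  have h2 : (univ.filter fun x => H.Adj j x).card + (univ.filter fun x => ¬ H.Adj j x).card = n := by
    have := Finset.card_filter_add_card_filter_not (s := (univ : Finset (Fin n))) (fun x => H.Adj j x)
    simpa using this
  rw [h1, card_insert_of_notMem (by simp [sw_adj])] at h2
  omega

lemma dg_adj {n : ℕ} (G : SimpleGraph (Fin n)) {i w : Fin n} (hw : w ≠ i) (h : G.Adj i w) :
    dg (sw G i) w + 1 = dg G w := by
  classical
  unfold dg
  have h1 : (univ.filter fun x => G.Adj w x) = insert i (univ.filter fun x => (sw G i).Adj w x) := by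
    ext x
    simp only [mem_filter, mem_univ, true_and, mem_insert, sw_adj]
    constructor
    · intro h'
      by_cases hx : x = i
      · exact Or.inl hx
      · exact Or.inr ⟨G.ne_of_adj h', iff_of_true h' ⟨hw, hx⟩⟩
    · rintro (rfl | h')
      · exact h.symm
      · by_cases hx : x = i
        · subst hx; exact h.symm
        · exact h'.2.2 ⟨hw, hx⟩
  rw [h1, card_insert_of_notMem]
  simp only [mem_filter, mem_univ, true_and, sw_adj]
  rintro ⟨_, h'⟩
  exact (h'.1 h.symm).2 rfl

lemma dg_nadj {n : ℕ} (G : SimpleGraph (Fin n)) {i w : Fin n} (hw : w ≠ i) (h : ¬ G.Adj i w) :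
    dg (sw G i) w = dg G w + 1 := by
  classical
  unfold dg
  have h1 : (univ.filter fun x => (sw G i).Adj w x) = insert i (univ.filter fun x => G.Adj w x) := by
    ext x
    simp only [mem_filter, mem_univ, true_and, mem_insert, sw_adj]
    constructor
    · rintro ⟨_, h'⟩
      by_cases hx : x = i
      · exact Or.inl hx
      · exact Or.inr (h'.2 ⟨hw, hx⟩)
    · rintro (rfl | h')
      · refine ⟨hw, ?_⟩
        constructor
        · intro h'; exact absurd h'.symm h
        · intro h'; exact absurd rfl h'.2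
      · have hx : x ≠ i := by
          rintro rfl
          exact h h'.symm
        exact ⟨G.ne_of_adj h', iff_of_true h' ⟨hw, hx⟩⟩
  rw [h1, card_insert_of_notMem]
  simp only [mem_filter, mem_univ, true_and]
  exact fun h' => h h'.symm

theorem main : PartEDG → PartDEG := by
  classical
  intro hE n hn G ⟨i, hi⟩ H ⟨σ, hσ⟩
  have hdeg := hE n hn G H σ hσ
  obtain ⟨θ⟩ := hσ i
  set j := σ i with hj
  set w := θ.symm j with hw
  have hθw : θ w = j := θ.apply_symm_apply j
  have h1 := dg_self H j
  have h2 := dg_iso θ w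
  rw [hθw] at h2
  have h3 := hdeg i
  rw [← hj] at h3
  by_cases hwi : w = i
  · rw [hwi] at hθw
    refine ⟨⟨θ.toEquiv, ?_⟩⟩
    intro a b
    have e1 : θ a = j ↔ a = i :=
      ⟨fun h => θ.injective (h.trans hθw.symm), fun h => by rw [h]; exact hθw⟩
    have e2 : θ b = j ↔ b = i :=
      ⟨fun h => θ.injective (h.trans hθw.symm), fun h => by rw [h]; exact hθw⟩
    have e3 : θ a = θ b ↔ a = b := θ.injective.eq_iff
    have e4 : (sw H j).Adj (θ a) (θ b) ↔ (sw G i).Adj a b := θ.map_adj_iff
    change H.Adj (θ a) (θ b) ↔ G.Adj a b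
    by_cases hab : a = b
    · subst hab
      exact iff_of_false (H.loopless.irrefl _) (G.loopless.irrefl _)
    · have e5 : (θ a ≠ θ b ∧ (H.Adj (θ a) (θ b) ↔ (θ a ≠ j ∧ θ b ≠ j))) ↔
          (a ≠ b ∧ (G.Adj a b ↔ (a ≠ i ∧ b ≠ i))) := e4
      simp only [ne_eq, e1, e2, e3] at e5
      tauto
  · exfalso
    by_cases hadj : G.Adj i w
    · have h4 := dg_adj G hwi hadj
      exact (hi w hwi).1 hadj (by omega)
    · have h4 := dg_nadj G hwi hadj
      exact (hi w hwi).2 hadj (by omega)

end Pool.Agent.W592.SV
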